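import Pool.Agent.Mg.F48470b.G42e214

open Pool.Agent.MP_48470b_gt

/-- An embedded self-shrinker in `ℝ⁴` homeomorphic to `S³` and invariant under a conjugate of the
torus `SO(2) × SO(2)` is the round sphere of radius `√6`. -/
theorem Pool.Agent.Results.MP_48470b_gt.BiRotational.result (S : Set E4) (hS : IsShrinker S)
    (hT : Nonempty (S ≃ₜ Metric.sphere (0 : E4) 1)) (A : E4 ≃ₗᵢ[ℝ] E4)
    (hR : ∀ α β : ℝ, ∀ p ∈ S, A (rot α β (A.symm p)) ∈ S) : S = Metric.sphere 0 √6 :=
  birotational_iso S hS hT A hR
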